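import Pool.Agent.helper97.KR.Spec

set_option autoImplicit false

namespace Pool.Agent.helper97.KR

open Finset Classical

noncomputable section

theorem SP3 (hSP1 : SP1_stmt) : SP3_stmt := by
  intro V E ends S F hG
  obtain ⟨T, h1, h2, h3, h4⟩ := hG.tr
  have hF : F = univ.biUnion T := by
    ext e
    simp [h4]
  have hTS : ∀ i, ∀ e ∈ T i, ∀ v ∈ ends e, v ∈ S := fun i e he => hG.sub e ((h4 e).2 ⟨i, he⟩)
  refine ⟨?_, fun U hU hUn => ?_⟩
  · have h5 : F.card = ∑ i, (T i).card := by
      rw [hF, card_biUnion (fun i _ j _ hij => h3 i j hij)]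
    rw [Fin.sum_univ_three] at h5
    have h6 := h1 0
    have h7 := h1 1
    have h8 := h1 2
    omega
  · obtain ⟨t, ht⟩ := hUn
    have h5 : (ins ends F U).card = ∑ i, (ins ends (T i) U).card := by
      have h6 : ins ends F U = univ.biUnion fun i => ins ends (T i) U := by
        ext e
        simp only [ins, mem_filter, mem_biUnion, mem_univ, true_and, h4]
        constructor
        · rintro ⟨⟨i, hi⟩, h⟩
          exact ⟨i, hi, h⟩
        · rintro ⟨i, hi, h⟩
          exact ⟨⟨i, hi⟩, h⟩
      rw [h6, card_biUnion]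
      intro i _ j _ hij
      exact (h3 i j hij).mono (filter_subset _ _) (filter_subset _ _)
    rw [Fin.sum_univ_three] at h5
    have h6 := (hSP1 V E ends S (T 0) (hTS 0) (h2 0) (h1 0) U hU t ht).1
    have h7 := (hSP1 V E ends S (T 1) (hTS 1) (h2 1) (h1 1) U hU t ht).1
    have h8 := (hSP1 V E ends S (T 2) (hTS 2) (h2 2) (h1 2) U hU t ht).1
    omega

end

end Pool.Agent.helper97.KR
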